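import Mathlib
import Pool.Agent.R748.SPE.Main
import Pool.Agent.Helper88.Weyl.Trans

open MeasureTheory Metric Set Filter Topology
open scoped ENNReal

noncomputable section

namespace Pool.Agent.R748.SPG

open Pool.Agent.R921.SP Pool.Agent.R748.SPE

/-- volume of the unit ball -/
def bv (n : ℕ) : ℝ := (volume (ball (0 : V n) 1)).toReal

lemma bv_nonneg (n : ℕ) : 0 ≤ bv n := ENNReal.toReal_nonneg

lemma bv_pos (n : ℕ) : 0 < bv n :=
  ENNReal.toReal_pos (measure_ball_pos volume 0 one_pos).ne' measure_ball_lt_top.ne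

lemma vol_cb {n : ℕ} (hn : 1 ≤ n) {r : ℝ} (hr : 0 ≤ r) :
    (volume (closedBall (0 : V n) r)).toReal = bv n * r ^ n := by
  have hfr : Module.finrank ℝ (V n) = n := finrank_euclideanSpace_fin
  have hnt : Nontrivial (V n) := Module.nontrivial_of_finrank_pos (R := ℝ) (by omega)
  rw [Measure.addHaar_closedBall volume 0 hr, hfr, ENNReal.toReal_mul, ENNReal.toReal_ofReal
    (by positivity), bv, mul_comm]

/-- radial primitive -/
lemma prim_deriv {n : ℕ} (hn : 1 ≤ n) {ε : ℝ} (hε : 0 < ε) (s : ℝ) :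
    HasDerivAt (fun s : ℝ => s ^ n / √(s ^ 2 + ε ^ 2))
      (s ^ (n - 1) * (n / √(s ^ 2 + ε ^ 2) - s ^ 2 / √(s ^ 2 + ε ^ 2) ^ 3)) s := by
  have hr : 0 < √(s ^ 2 + ε ^ 2) := Real.sqrt_pos.2 (by positivity)
  have hsq : √(s ^ 2 + ε ^ 2) ^ 2 = s ^ 2 + ε ^ 2 := Real.sq_sqrt (by positivity)
  have h1 : HasDerivAt (fun s : ℝ => s ^ n) (n * s ^ (n - 1)) s := hasDerivAt_pow n s
  have h2 : HasDerivAt (fun s : ℝ => √(s ^ 2 + ε ^ 2)) (2 * s / (2 * √(s ^ 2 + ε ^ 2))) s := by
    apply HasDerivAt.sqrt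
    · simpa using (hasDerivAt_pow 2 s).add_const (ε ^ 2)
    · positivity
  have h3 := h1.div h2 hr.ne'
  have e : s ^ (n - 1) * (n / √(s ^ 2 + ε ^ 2) - s ^ 2 / √(s ^ 2 + ε ^ 2) ^ 3) =
      (n * s ^ (n - 1) * √(s ^ 2 + ε ^ 2) - s ^ n * (2 * s / (2 * √(s ^ 2 + ε ^ 2)))) /
        √(s ^ 2 + ε ^ 2) ^ 2 := by
    obtain ⟨k, rfl⟩ : ∃ k, n = k + 1 := ⟨n - 1, by omega⟩
    rw [Nat.add_sub_cancel]
    field_simp
    ring
  rw [e]
  exact h3

/-- the radial integral -/
lemma rad_int {n : ℕ} (hn : 1 ≤ n) {ε : ℝ} (hε : 0 < ε) {r : ℝ} (hr : 0 ≤ r) :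
    ∫ x in closedBall (0 : V n) r, dcmp ε x = n * bv n * (r ^ n / √(r ^ 2 + ε ^ 2)) := by
  have hfr : Module.finrank ℝ (V n) = n := finrank_euclideanSpace_fin
  have hnt : Nontrivial (V n) := Module.nontrivial_of_finrank_pos (R := ℝ) (by omega)
  set D : ℝ → ℝ := fun s => n / √(s ^ 2 + ε ^ 2) - s ^ 2 / √(s ^ 2 + ε ^ 2) ^ 3 with hD
  have hDc : Continuous D := by
    have h1 : Continuous (fun s : ℝ => √(s ^ 2 + ε ^ 2)) := by fun_prop
    have h2 : ∀ s : ℝ, √(s ^ 2 + ε ^ 2) ≠ 0 := fun s => (Real.sqrt_pos.2 (by positivity)).ne'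
    exact (continuous_const.div h1 h2).sub ((continuous_pow 2).div (h1.pow 3)
      fun s => pow_ne_zero _ (h2 s))
  have h0 := integral_fun_norm_addHaar (volume : Measure (V n)) ((Icc 0 r).indicator D)
  have h1 : (fun x : V n => (Icc 0 r).indicator D ‖x‖) =
      (closedBall (0 : V n) r).indicator (dcmp ε) := by
    funext x
    by_cases h : x ∈ closedBall (0 : V n) r
    · rw [indicator_of_mem h]
      rw [mem_closedBall_zero_iff] at h
      rw [indicator_of_mem (show ‖x‖ ∈ Icc 0 r from ⟨norm_nonneg _, h⟩)]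
      rfl
    · rw [indicator_of_notMem h]
      rw [mem_closedBall_zero_iff] at h
      rw [indicator_of_notMem (fun hh => h hh.2)]
  rw [h1, integral_indicator measurableSet_closedBall, hfr] at h0
  rw [h0]
  have h2 : (fun y : ℝ => y ^ (n - 1) • (Icc 0 r).indicator D y) =
      (Icc 0 r).indicator (fun y => y ^ (n - 1) * D y) := by
    funext y
    by_cases h : y ∈ Icc 0 r
    · rw [indicator_of_mem h, indicator_of_mem h, smul_eq_mul]
    · rw [indicator_of_notMem h, indicator_of_notMem h, smul_zero]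
  rw [h2, setIntegral_indicator measurableSet_Icc]
  have h3 : Ioi (0:ℝ) ∩ Icc 0 r = Ioc 0 r := by
    ext y
    simp only [mem_inter_iff, mem_Ioi, mem_Icc, mem_Ioc]
    constructor
    · rintro ⟨h, -, h'⟩; exact ⟨h, h'⟩
    · rintro ⟨h, h'⟩; exact ⟨h, h.le, h'⟩
  rw [h3, ← intervalIntegral.integral_of_le hr,
    intervalIntegral.integral_eq_sub_of_hasDerivAt (f := fun s : ℝ => s ^ n / √(s ^ 2 + ε ^ 2))
      (fun s _ => prim_deriv hn hε s)
      (((continuous_pow (n - 1)).mul hDc).intervalIntegrable _ _)]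
  rw [zero_pow (by omega), zero_div, sub_zero, nsmul_eq_mul, smul_eq_mul, mul_assoc]
  rfl

/-- Fubini over the ball -/
lemma int_ball (m : ℕ) {F : Pl × V m → ℝ} (hF : Continuous F) :
    (∫ p in closedBall (0 : V (m + 2)) 1, F (px p, pz p) =
      ∫ z in closedBall (0 : V m) 1, ∫ x in closedBall (0 : Pl) (√(1 - ‖z‖ ^ 2)), F (x, z)) ∧
    (∫ p in closedBall (0 : V (m + 2)) 1, F (px p, pz p) =
      ∫ x in closedBall (0 : Pl) 1, ∫ z in closedBall (0 : V m) (√(1 - ‖x‖ ^ 2)), F (x, z)) := by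
  set S : Set (Pl × V m) := {q | ‖q.1‖ ^ 2 + ‖q.2‖ ^ 2 ≤ 1} with hSdef
  have hSc : IsClosed S := isClosed_le (by fun_prop) continuous_const
  have hS : IsCompact S := by
    apply ((isCompact_closedBall (0 : Pl) 1).prod
      (isCompact_closedBall (0 : V m) 1)).of_isClosed_subset hSc
    intro q hq
    have hq' : ‖q.1‖ ^ 2 + ‖q.2‖ ^ 2 ≤ 1 := hq
    refine ⟨?_, ?_⟩ <;> rw [mem_closedBall_zero_iff]
    · nlinarith [norm_nonneg q.1, norm_nonneg q.2, sq_nonneg ‖q.2‖]
    · nlinarith [norm_nonneg q.1, norm_nonneg q.2, sq_nonneg ‖q.1‖]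
  have hmp := mp_split m
  have hi : Integrable (S.indicator F) ((volume : Measure Pl).prod (volume : Measure (V m))) :=
    (hF.continuousOn.integrableOn_compact hS).integrable_indicator hS.measurableSet
  have hpre : closedBall (0 : V (m + 2)) 1 = (fun p : V (m + 2) => (px p, pz p)) ⁻¹' S := by
    ext p
    rw [mem_closedBall_zero_iff, mem_preimage]
    show ‖p‖ ≤ 1 ↔ ‖px p‖ ^ 2 + ‖pz p‖ ^ 2 ≤ 1
    rw [← norm_split, sq_le_one_iff₀ (norm_nonneg _)]
  have h1 : ∫ p in closedBall (0 : V (m + 2)) 1, F (px p, pz p) = ∫ q, S.indicator F q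
      ∂((volume : Measure Pl).prod (volume : Measure (V m))) := by
    rw [integral_indicator hS.measurableSet, ← hmp.map_eq, setIntegral_map hS.measurableSet
      (by rw [hmp.map_eq]; exact hF.aestronglyMeasurable) hmp.measurable.aemeasurable, hpre]
  have key : ∀ a b : ℝ, 0 ≤ a → 0 ≤ b → (a ^ 2 + b ^ 2 ≤ 1 ↔ b ≤ 1 ∧ a ≤ √(1 - b ^ 2)) := by
    intro a b ha hb
    constructor
    · intro h
      have hb1 : b ≤ 1 := by nlinarith [sq_nonneg a]
      refine ⟨hb1, ?_⟩
      apply Real.le_sqrt_of_sq_le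
      linarith
    · rintro ⟨hb1, h⟩
      have h2 : 0 ≤ 1 - b ^ 2 := by nlinarith
      have h3 := Real.sq_sqrt h2
      have h4 : a ^ 2 ≤ √(1 - b ^ 2) ^ 2 := by
        apply pow_le_pow_left₀ ha h
      linarith
  constructor
  · rw [h1, integral_prod_symm _ hi, ← integral_indicator measurableSet_closedBall]
    congr 1
    funext z
    by_cases hz : z ∈ closedBall (0 : V m) 1
    · rw [indicator_of_mem hz, ← integral_indicator measurableSet_closedBall]
      congr 1
      funext x
      rw [mem_closedBall_zero_iff] at hz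
      by_cases hx : x ∈ closedBall (0 : Pl) (√(1 - ‖z‖ ^ 2))
      · rw [indicator_of_mem hx]
        rw [mem_closedBall_zero_iff] at hx
        exact indicator_of_mem (show (x, z) ∈ S from
          (key _ _ (norm_nonneg _) (norm_nonneg _)).2 ⟨hz, hx⟩) _
      · rw [indicator_of_notMem hx]
        rw [mem_closedBall_zero_iff] at hx
        exact indicator_of_notMem (show (x, z) ∉ S from fun h =>
          hx ((key _ _ (norm_nonneg _) (norm_nonneg _)).1 h).2) _
    · rw [indicator_of_notMem hz]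
      rw [mem_closedBall_zero_iff] at hz
      apply integral_eq_zero_of_ae
      apply ae_of_all
      intro x
      exact indicator_of_notMem (show (x, z) ∉ S from fun h =>
          hz ((key _ _ (norm_nonneg _) (norm_nonneg _)).1 h).1) _
  · rw [h1, integral_prod _ hi, ← integral_indicator measurableSet_closedBall]
    congr 1
    funext x
    by_cases hx : x ∈ closedBall (0 : Pl) 1
    · rw [indicator_of_mem hx, ← integral_indicator measurableSet_closedBall]
      congr 1
      funext z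
      rw [mem_closedBall_zero_iff] at hx
      by_cases hz : z ∈ closedBall (0 : V m) (√(1 - ‖x‖ ^ 2))
      · rw [indicator_of_mem hz]
        rw [mem_closedBall_zero_iff] at hz
        exact indicator_of_mem (show (x, z) ∈ S by
          have := (key _ _ (norm_nonneg _) (norm_nonneg _)).2 ⟨hx, hz⟩
          show ‖x‖ ^ 2 + ‖z‖ ^ 2 ≤ 1
          linarith) _
      · rw [indicator_of_notMem hz]
        rw [mem_closedBall_zero_iff] at hz
        exact indicator_of_notMem (show (x, z) ∉ S from fun h =>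
          hz ((key _ _ (norm_nonneg _) (norm_nonneg _)).1 (by
            have h' : ‖x‖ ^ 2 + ‖z‖ ^ 2 ≤ 1 := h
            linarith)).2) _
    · rw [indicator_of_notMem hx]
      rw [mem_closedBall_zero_iff] at hx
      apply integral_eq_zero_of_ae
      apply ae_of_all
      intro z
      exact indicator_of_notMem (show (x, z) ∉ S from fun h =>
          hx ((key _ _ (norm_nonneg _) (norm_nonneg _)).1 (by
            have h' : ‖x‖ ^ 2 + ‖z‖ ^ 2 ≤ 1 := h
            show ‖z‖ ^ 2 + ‖x‖ ^ 2 ≤ 1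
            linarith)).1) _

/-- the upper bound for the perimeter of the ball -/
lemma per_cb (n : ℕ) (hn : 1 ≤ n) :
    perimeter (closedBall (0 : V n) 1) ≤ ENNReal.ofReal (n * bv n) := by
  have h1 := Pool.Agent.Helper88.Weyl.per_ball (N := n) hn (R := 1) one_pos
  have h2 : bv n = Pool.Agent.Helper88.Weyl.om n := by
    unfold bv
    have : Nonempty (Fin n) := ⟨⟨0, by omega⟩⟩
    rw [EuclideanSpace.volume_ball]
    simp only [Fintype.card_fin, ENNReal.ofReal_one, one_pow, one_mul]
    rw [ENNReal.toReal_ofReal]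
    · rfl
    · have : (0:ℝ) < Real.Gamma (n / 2 + 1) := Real.Gamma_pos_of_pos (by positivity)
      positivity
  rw [h2]
  rw [one_pow, mul_one] at h1
  refine le_trans ?_ h1
  unfold perimeter
  apply iSup_le
  rintro ⟨φ, hφ1, hφ2, hφ3⟩
  have h3 : ∫ x in closedBall (0 : V n) 1, divg φ x = ∫ x in ball (0 : V n) 1, divg φ x := by
    apply setIntegral_congr_set
    have hfr : Module.finrank ℝ (V n) = n := finrank_euclideanSpace_fin
    have hnt : Nontrivial (V n) := Module.nontrivial_of_finrank_pos (R := ℝ) (by omega)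
    rw [← ball_union_sphere]
    exact union_ae_eq_left_of_ae_eq_empty (ae_eq_empty.2 (Measure.addHaar_sphere volume 0 1))
  simp only
  rw [h3]
  unfold Pool.Agent.Helper88.Weyl.perimeter
  exact le_iSup_of_le φ (le_iSup_of_le hφ1 (le_iSup_of_le hφ2 (le_iSup_of_le hφ3 le_rfl)))

lemma vol_int (m : ℕ) :
    bv (m + 2) = ∫ _p in closedBall (0 : V (m + 2)) 1, (1:ℝ) := by
  have h := vol_cb (n := m + 2) (by omega) (r := 1) zero_le_one
  rw [one_pow, mul_one] at h
  rw [← h, integral_const, smul_eq_mul, mul_one, Measure.real, Measure.restrict_apply_univ]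

lemma sq_bound {r ε : ℝ} (hr : 0 ≤ r) (hε : 0 < ε) : r - ε ≤ r ^ 2 / √(r ^ 2 + ε ^ 2) := by
  have h0 : 0 < √(r ^ 2 + ε ^ 2) := Real.sqrt_pos.2 (by positivity)
  rw [le_div_iff₀ h0]
  have h1 : √(r ^ 2 + ε ^ 2) ≤ r + ε := by
    rw [Real.sqrt_le_left (by positivity)]
    nlinarith
  rcases le_total r ε with h | h
  · nlinarith [mul_nonneg (sub_nonneg.2 h) h0.le]
  · nlinarith [mul_le_mul_of_nonneg_left h1 (sub_nonneg.2 h)]

lemma inv_bound {ρ ε : ℝ} (hρ1 : ρ ^ 2 ≤ 1) (hε : 0 < ε) (hε1 : ε ≤ 1) :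
    1 - ε ^ 2 ≤ 1 / √(ρ ^ 2 + ε ^ 2) := by
  have h0 : 0 < √(ρ ^ 2 + ε ^ 2) := Real.sqrt_pos.2 (by positivity)
  rw [le_div_iff₀ h0]
  have h1 : √(ρ ^ 2 + ε ^ 2) ≤ 1 + ε ^ 2 := by
    rw [Real.sqrt_le_left (by positivity)]
    nlinarith [sq_nonneg ε]
  have h2 : 0 ≤ 1 - ε ^ 2 := by nlinarith
  nlinarith [mul_le_mul_of_nonneg_left h1 h2, sq_nonneg (ε ^ 2)]

theorem stmtG : StmtG := by
  intro m hm
  set b2 := bv 2 with hb2
  set bm := bv m with hbm
  set v := bv (m + 2) with hv
  have hb2p : 0 < b2 := bv_pos 2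
  have hbmp : 0 < bm := bv_pos m
  have hvp : 0 < v := bv_pos (m + 2)
  set r : V m → ℝ := fun z => √(1 - ‖z‖ ^ 2) with hr
  set ρ : Pl → ℝ := fun x => √(1 - ‖x‖ ^ 2) with hρ
  have hrc : Continuous r := by simp only [hr]; fun_prop
  have hρc : Continuous ρ := by simp only [hρ]; fun_prop
  have hr0 : ∀ z, 0 ≤ r z := fun z => Real.sqrt_nonneg _
  have hr1 : ∀ z, r z ≤ 1 := fun z => by
    simp only [hr]
    rw [Real.sqrt_le_left zero_le_one]
    nlinarith [sq_nonneg ‖z‖]
  have hρ0 : ∀ z, 0 ≤ ρ z := fun z => Real.sqrt_nonneg _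
  have hρ1 : ∀ z, ρ z ≤ 1 := fun z => by
    simp only [hρ]
    rw [Real.sqrt_le_left zero_le_one]
    nlinarith [sq_nonneg ‖z‖]
  have hcB : IsCompact (closedBall (0 : V m) 1) := isCompact_closedBall 0 1
  have hcB2 : IsCompact (closedBall (0 : Pl) 1) := isCompact_closedBall 0 1
  set κ : ℝ := ∫ z in closedBall (0 : V m) 1, (r z - r z ^ 2) with hκ
  have hκp : 0 < κ := by
    rw [hκ, setIntegral_pos_iff_support_of_nonneg_ae]
    · set z₀ : V m := EuclideanSpace.single (⟨0, by omega⟩ : Fin m) (1 / 2 : ℝ) with hz₀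
      have hz0n : ‖z₀‖ = 1 / 2 := by
        rw [hz₀, PiLp.norm_single]
        norm_num
      refine lt_of_lt_of_le (measure_ball_pos volume z₀ (r := 1 / 4) (by norm_num)) (measure_mono ?_)
      intro z hz
      rw [mem_ball, dist_eq_norm] at hz
      have h1 : ‖z‖ < 3 / 4 := by
        have := norm_sub_norm_le z z₀
        linarith
      have h2 : 1 / 4 < ‖z‖ := by
        have := norm_sub_norm_le z₀ z
        rw [norm_sub_rev] at this
        linarith
      refine ⟨?_, ?_⟩
      · rw [Function.mem_support]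
        have h3 : 0 < r z := Real.sqrt_pos.2 (by nlinarith)
        have h4 : r z < 1 := by
          simp only [hr]
          rw [Real.sqrt_lt' one_pos]
          nlinarith
        have : 0 < r z - r z ^ 2 := by nlinarith
        exact this.ne'
      · rw [mem_closedBall_zero_iff]; linarith
    · apply ae_of_all
      intro z
      show 0 ≤ r z - r z ^ 2
      nlinarith [hr0 z, hr1 z]
    · exact (hrc.sub (hrc.pow 2)).continuousOn.integrableOn_compact hcB
  set ε : ℝ := min 1 (b2 * κ / (2 * b2 * bm + m * v + 1)) with hεdef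
  have hden : 0 < 2 * b2 * bm + m * v + 1 := by positivity
  have hε : 0 < ε := lt_min one_pos (by positivity)
  have hε1 : ε ≤ 1 := min_le_left _ _
  have hε2 : ε * (2 * b2 * bm + m * v + 1) ≤ b2 * κ := by
    have := min_le_right 1 (b2 * κ / (2 * b2 * bm + m * v + 1))
    rw [← hεdef, le_div_iff₀ hden] at this
    exact this
  refine ⟨ε, hε, b2 * κ, by positivity, ?_⟩
  -- the volume
  have hv1 : v = ∫ z in closedBall (0 : V m) 1, b2 * r z ^ 2 := by
    have h := (int_ball m (F := fun _ => (1:ℝ)) continuous_const).1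
    rw [hv, vol_int, h]
    congr 1
    funext z
    rw [integral_const, smul_eq_mul, mul_one, Measure.real, Measure.restrict_apply_univ]
    exact vol_cb (n := 2) (by norm_num) (Real.sqrt_nonneg _)
  have hv2 : v = ∫ x in closedBall (0 : Pl) 1, bm * ρ x ^ m := by
    have h := (int_ball m (F := fun _ => (1:ℝ)) continuous_const).2
    rw [hv, vol_int, h]
    congr 1
    funext z
    rw [integral_const, smul_eq_mul, mul_one, Measure.real, Measure.restrict_apply_univ]
    exact vol_cb hm (Real.sqrt_nonneg _)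
  -- the two integrals
  have hA := (int_ball m (F := fun q => dcmp ε q.1) ((dcmp_cont hε).comp continuous_fst)).1
  have hB := (int_ball m (F := fun q => dcmp ε q.2) ((dcmp_cont hε).comp continuous_snd)).2
  simp only at hA hB
  have hA' : ∀ z : V m, ∫ x in closedBall (0 : Pl) (√(1 - ‖z‖ ^ 2)), dcmp ε x =
      2 * b2 * (r z ^ 2 / √(r z ^ 2 + ε ^ 2)) := fun z => by
    have := rad_int (n := 2) (by norm_num) hε (r := √(1 - ‖z‖ ^ 2)) (Real.sqrt_nonneg _)
    simpa using this
  have hB' : ∀ x : Pl, ∫ z in closedBall (0 : V m) (√(1 - ‖x‖ ^ 2)), dcmp ε z =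
      m * bm * (ρ x ^ m / √(ρ x ^ 2 + ε ^ 2)) := fun x =>
    rad_int hm hε (r := √(1 - ‖x‖ ^ 2)) (Real.sqrt_nonneg _)
  simp only [hA'] at hA
  simp only [hB'] at hB
  have hsc1 : Continuous (fun z : V m => √(r z ^ 2 + ε ^ 2)) := by fun_prop
  have hsc2 : Continuous (fun z : Pl => √(ρ z ^ 2 + ε ^ 2)) := by fun_prop
  have hs1 : ∀ t : ℝ, √(t ^ 2 + ε ^ 2) ≠ 0 := fun t => (Real.sqrt_pos.2 (by positivity)).ne'
  have hcvm : ∫ _z in closedBall (0 : V m) 1, (1:ℝ) = bm := by
    rw [integral_const, smul_eq_mul, mul_one, Measure.real, Measure.restrict_apply_univ]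
    have := vol_cb hm (r := 1) zero_le_one
    simpa using this
  have hAge : 2 * b2 * (∫ z in closedBall (0 : V m) 1, r z) - 2 * b2 * ε * bm ≤
      ∫ p in closedBall (0 : V (m + 2)) 1, dcmp ε (px p) := by
    rw [hA]
    have e1 : 2 * b2 * (∫ z in closedBall (0 : V m) 1, r z) - 2 * b2 * ε * bm =
        ∫ z in closedBall (0 : V m) 1, (2 * b2 * (r z - ε)) := by
      rw [integral_const_mul, integral_sub (hrc.continuousOn.integrableOn_compact hcB)
        (continuous_const.continuousOn.integrableOn_compact hcB)]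
      have : ∫ _z in closedBall (0 : V m) 1, ε = ε * bm := by
        rw [← hcvm, ← integral_const_mul]; simp
      rw [this]
      ring
    rw [e1]
    apply setIntegral_mono
    · exact (continuous_const.mul (hrc.sub continuous_const)).continuousOn.integrableOn_compact hcB
    · exact (continuous_const.mul ((hrc.pow 2).div hsc1 fun z => hs1 _)).continuousOn.integrableOn_compact hcB
    · intro z
      exact mul_le_mul_of_nonneg_left (sq_bound (hr0 z) hε) (by positivity)
  have hBge : (1 - ε ^ 2) * (m * v) ≤ ∫ p in closedBall (0 : V (m + 2)) 1, dcmp ε (pz p) := by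
    rw [hB]
    have e1 : (1 - ε ^ 2) * (m * v) =
        ∫ x in closedBall (0 : Pl) 1, ((1 - ε ^ 2) * m * (bm * ρ x ^ m)) := by
      rw [integral_const_mul, ← hv2]
      ring
    rw [e1]
    apply setIntegral_mono
    · exact (continuous_const.mul (continuous_const.mul (hρc.pow m))).continuousOn.integrableOn_compact hcB2
    · exact (continuous_const.mul ((hρc.pow m).div hsc2 fun z => hs1 _)).continuousOn.integrableOn_compact hcB2
    · intro x
      have h1 := inv_bound (ρ := ρ x) (by nlinarith [hρ0 x, hρ1 x]) hε hε1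
      have h2 : 0 ≤ (m : ℝ) * bm * ρ x ^ m := by
        have := hρ0 x
        positivity
      have h3 := mul_le_mul_of_nonneg_left h1 h2
      calc (1 - ε ^ 2) * m * (bm * ρ x ^ m) = (m : ℝ) * bm * ρ x ^ m * (1 - ε ^ 2) := by ring
        _ ≤ (m : ℝ) * bm * ρ x ^ m * (1 / √(ρ x ^ 2 + ε ^ 2)) := h3
        _ = m * bm * (ρ x ^ m / √(ρ x ^ 2 + ε ^ 2)) := by ring
  have hκ2 : κ * b2 = b2 * (∫ z in closedBall (0 : V m) 1, r z) - v := by
    have e := integral_sub (μ := volume.restrict (closedBall (0 : V m) 1))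
      (hrc.continuousOn.integrableOn_compact hcB)
      ((hrc.pow 2).continuousOn.integrableOn_compact hcB)
    simp only [Pi.pow_apply] at e
    rw [hκ, e, hv1, integral_const_mul]
    ring
  have hsum : ∫ p in closedBall (0 : V (m + 2)) 1, dv m ε p =
      (∫ p in closedBall (0 : V (m + 2)) 1, dcmp ε (px p)) +
        ∫ p in closedBall (0 : V (m + 2)) 1, dcmp ε (pz p) := by
    have hpx : Continuous (fun p : V (m + 2) => px p) := (pxL m).continuous
    have hpz : Continuous (fun p : V (m + 2) => pz p) := (pzL m).continuous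
    have e := integral_add (μ := volume.restrict (closedBall (0 : V (m + 2)) 1))
      (((dcmp_cont hε).comp hpx).continuousOn.integrableOn_compact
      (isCompact_closedBall 0 1)) (((dcmp_cont hε).comp hpz).continuousOn.integrableOn_compact
      (isCompact_closedBall 0 1))
    simp only [Function.comp_apply] at e
    rw [← e]
    congr 1
  have hper := per_cb (m + 2) (by omega)
  refine (add_le_add hper le_rfl).trans ?_
  rw [← ENNReal.ofReal_add (by positivity) (by positivity)]
  apply ENNReal.ofReal_le_ofReal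
  rw [hsum]
  have h5 : m * v * ε ^ 2 ≤ m * v * ε := by
    apply mul_le_mul_of_nonneg_left _ (by positivity)
    nlinarith
  push_cast
  nlinarith [hAge, hBge, hκ2, hε2, h5, hε]

end Pool.Agent.R748.SPG
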